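import Pool.Agent.helper4.HL.Spec
import Pool.Agent.helper46.CM.CON1

/-! # `PERQ`: the period of the translation operators for `Q N = u_k` -/

open scoped BigOperators ComplexOrder ComplexConjugate Topology

namespace Pool.Agent.HL

open Pool.Agent.helper86.CM Pool.Agent.QS Filter MeasureTheory

noncomputable section

theorem PERQ (hD : DBL_stmt) : PERQ_stmt := by
  intro B t h Q k N hN0 hN x n v
  obtain ⟨z, hz⟩ := hD B t h k (pw B (k : ℤ) n)
  rw [pw_neg_pw, ← pw_add, ← hN] at hz
  have e1 : pw B ((2 * k : ℕ) : ℤ) n = n + (2 * N) • (Q • z) := by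
    have e2 : ((2 * k : ℕ) : ℤ) = (k : ℤ) + k := by
      push_cast
      ring
    rw [e2, ← sub_eq_iff_eq_add', hz, smul_smul, ← natCast_zsmul]
    congr 1
    push_cast
    ring
  rw [e1, ← add_assoc]
  have h1 := CON1_mul (N := N) (x + n) ((2 * N) • (Q • z)) v
  rw [CON1_per] at h1
  have h2 : ((omega (x + n) ((2 * N) • (Q • z)) : ℤ) : ℝ) / (2 * N) =
      ((omega (x + n) (Q • z) : ℤ) : ℝ) := by
    have h3 : (N : ℝ) ≠ 0 := by exact_mod_cast hN0.out
    rw [← natCast_zsmul, omega_smul_right]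
    push_cast
    field_simp
  rw [h2, ee_int, one_smul] at h1
  exact h1.symm

end

end Pool.Agent.HL
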